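import Pool.Agent.Helper99.AA.Stmts

set_option autoImplicit false

open Finset MeasureTheory
open scoped BigOperators

namespace Pool.Agent.Helper29.AA

open Pool.Agent.Helper40.MR Pool.Agent.Helper99.AA

/-- Members of `PrI a b`. -/
lemma mem_PrI_real {a b : ℝ} {p : ℕ} (h : p ∈ PrI a b) : p.Prime ∧ a < p := by
  unfold PrI IocN at h
  rw [Finset.mem_filter, Finset.mem_Ioc] at h
  exact ⟨h.2, Nat.lt_of_floor_lt h.1.1⟩

lemma exp_small {x : ℝ} (h0 : 0 ≤ x) (h1 : x ≤ 1 / 2) : Real.exp x ≤ 1 + 2 * x := by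
  have h := Real.abs_exp_sub_one_le (x := x) (by rw [abs_of_nonneg h0]; linarith)
  rw [abs_of_nonneg h0] at h
  have := (abs_le.mp h).2
  linarith

open Classical in
theorem st_BN (hBU : ST_BU) : ST_BN := by
  intro η ε hη hη1 hε
  obtain ⟨M₀, hM₀⟩ := hBU η (η / 10) (ε / 2) hη hη1 (by positivity) (by positivity)
  refine ⟨(max M₀ (100 / η)) ^ 2, ?_⟩
  intro X hX
  set M := Real.sqrt X with hMdef
  have hX0 : 0 ≤ X := le_trans (sq_nonneg _) hX
  have hMX : M ^ 2 = X := Real.sq_sqrt hX0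
  have hmax0 : 0 ≤ max M₀ (100 / η) := le_trans (by positivity) (le_max_right _ _)
  have hMmax : max M₀ (100 / η) ≤ M := Real.le_sqrt_of_sq_le hX
  have hMM₀ : M₀ ≤ M := le_trans (le_max_left _ _) hMmax
  have hMη' : 100 / η ≤ M := le_trans (le_max_right _ _) hMmax
  have hMη : 100 ≤ η * M := by
    rw [div_le_iff₀ hη] at hMη'
    linarith
  have hM1 : 1000 ≤ M := by nlinarith
  have hM0 : 0 < M := by linarith
  have hvol := hM₀ M hMM₀
  set E := {u : ℝ | M ^ 2 * (1 - η / 4) ≤ Real.exp u ∧ Real.exp u ≤ M ^ 2 * (1 + η) ∧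
    Wn η M ((η / 10) / M) u = 0} with hE
  set B := (IocN X ((1 + η) * X)).filter (fun n : ℕ => ¬ ∃ p q : ℕ, p.Prime ∧ q.Prime ∧ p * q < n ∧
    (n : ℝ) - η * Real.sqrt n ≤ ((p * q : ℕ) : ℝ) ∧ (1 - 4 * η) * Real.sqrt n ≤ p ∧
    (1 - 4 * η) * Real.sqrt n ≤ q) with hB
  set h := ⌈η * M / 2⌉₊ with hh
  have hh1 : η * M / 2 ≤ (h : ℝ) := Nat.le_ceil _
  have hh2 : (h : ℝ) < η * M / 2 + 1 := Nat.ceil_lt_add_one (by positivity)
  have hXM : X = M * M := by rw [← hMX]; ring
  have hηM : η * M ≤ M / 10 := by nlinarith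
  -- facts on members of B
  have hBmem : ∀ n ∈ B, X < (n : ℝ) ∧ (n : ℝ) ≤ (1 + η) * X := by
    intro n hn
    rw [hB, Finset.mem_filter] at hn
    have h1 := hn.1
    unfold IocN at h1
    rw [Finset.mem_Ioc] at h1
    refine ⟨Nat.lt_of_floor_lt h1.1, ?_⟩
    exact (Nat.le_floor_iff (by positivity)).mp h1.2
  have hpos : ∀ n ∈ B, 1 < (n : ℝ) - h := by
    intro n hn
    have h1 := (hBmem n hn).1
    nlinarith
  let J : ℕ → Set ℝ := fun n => Set.Ioo (Real.log ((n : ℝ) - h)) (Real.log ((n : ℝ) - h + 1))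
  have hJE : ∀ n ∈ B, J n ⊆ E := by
    intro n hn u hu
    have hp := hpos n hn
    obtain ⟨hn1, hn2⟩ := hBmem n hn
    have hu1 : (n : ℝ) - h < Real.exp u := (Real.log_lt_iff_lt_exp (by linarith)).mp hu.1
    have hu2 : Real.exp u < (n : ℝ) - h + 1 := (Real.lt_log_iff_exp_lt (by linarith)).mp hu.2
    refine ⟨?_, ?_, ?_⟩
    · rw [hMX]
      nlinarith
    · rw [hMX]
      nlinarith
    · unfold Wn
      rw [Finset.card_eq_zero, Finset.filter_eq_empty_iff]
      rintro ⟨p, q⟩ hr ⟨h1, h2⟩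
      rw [Finset.mem_product] at hr
      obtain ⟨hpP, hqQ⟩ := hr
      obtain ⟨hp1, hp2⟩ := mem_PrI_real hpP
      obtain ⟨hq1, hq2⟩ := mem_PrI_real hqQ
      simp only at h1 h2 hp1 hp2 hq1 hq2
      have hpq0 : (0 : ℝ) < ((p * q : ℕ) : ℝ) := by
        exact_mod_cast Nat.mul_pos hp1.pos hq1.pos
      have h3 : Real.exp u < ((p * q : ℕ) : ℝ) := (Real.lt_log_iff_exp_lt hpq0).mp h1
      have h4 : ((p * q : ℕ) : ℝ) ≤ Real.exp (u + η / 10 / M) := (Real.log_le_iff_le_exp hpq0).mp h2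
      have hx0 : 0 ≤ η / 10 / M := by positivity
      have hx1 : η / 10 / M ≤ 1 / 2 := by
        rw [div_le_iff₀ hM0]
        linarith
      have h5 := exp_small hx0 hx1
      rw [Real.exp_add] at h4
      have h6 : ((p * q : ℕ) : ℝ) < (n : ℝ) := by
        have hA : Real.exp u * Real.exp (η / 10 / M) ≤
            ((n : ℝ) - h + 1) * (1 + 2 * (η / 10 / M)) := by
          apply mul_le_mul hu2.le h5 (Real.exp_pos _).le (by linarith)
        have hBd : ((n : ℝ) - h + 1) * (2 * (η / 10 / M)) ≤ (1 + η) * X * (2 * (η / 10 / M)) := by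
          apply mul_le_mul_of_nonneg_right _ (by positivity)
          nlinarith
        have hC : (1 + η) * X * (2 * (η / 10 / M)) = (1 + η) * (η * M) / 5 := by
          rw [hXM]
          field_simp
          ring
        nlinarith
      have hsq1 : M ≤ Real.sqrt n := by
        apply Real.le_sqrt_of_sq_le
        rw [hMX]
        exact hn1.le
      have hsq2 : Real.sqrt n ≤ M * (1 + η) := by
        apply Real.sqrt_le_iff.mpr
        refine ⟨by positivity, ?_⟩
        nlinarith [mul_pos hη hη, mul_nonneg hX0 (mul_pos hη hη).le, mul_nonneg hX0 hη.le]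
      rw [hB, Finset.mem_filter] at hn
      apply hn.2
      refine ⟨p, q, hp1, hq1, by exact_mod_cast h6, ?_, ?_, ?_⟩
      · nlinarith
      · have : (1 - 4 * η) * Real.sqrt n ≤ (1 - 4 * η) * (M * (1 + η)) :=
          mul_le_mul_of_nonneg_left hsq2 (by linarith)
        nlinarith [mul_pos hM0 hη, mul_pos (mul_pos hM0 hη) hη]
      · have : (1 - 4 * η) * Real.sqrt n ≤ (1 - 4 * η) * (M * (1 + η)) :=
          mul_le_mul_of_nonneg_left hsq2 (by linarith)
        nlinarith [mul_pos hM0 hη, mul_pos (mul_pos hM0 hη) hη]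
  have hdisj : (B : Set ℕ).PairwiseDisjoint J := by
    intro a ha b hb hab
    rw [Function.onFun, Set.disjoint_left]
    intro u hu1 hu2
    have hpa := hpos a ha
    have hpb := hpos b hb
    rcases lt_or_gt_of_ne hab with h1 | h1
    · have h2 : (a : ℝ) + 1 ≤ b := by exact_mod_cast h1
      have h3 : Real.log ((a : ℝ) - h + 1) ≤ Real.log ((b : ℝ) - h) :=
        Real.log_le_log (by linarith) (by linarith)
      exact absurd (hu1.2.trans_le h3) (not_lt.mpr hu2.1.le)
    · have h2 : (b : ℝ) + 1 ≤ a := by exact_mod_cast h1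
      have h3 : Real.log ((b : ℝ) - h + 1) ≤ Real.log ((a : ℝ) - h) :=
        Real.log_le_log (by linarith) (by linarith)
      exact absurd (hu2.2.trans_le h3) (not_lt.mpr hu1.1.le)
  have hvolJ : ∀ n ∈ B, ENNReal.ofReal (1 / (2 * X)) ≤ volume (J n) := by
    intro n hn
    have hp := hpos n hn
    obtain ⟨hn1, hn2⟩ := hBmem n hn
    show _ ≤ volume (Set.Ioo _ _)
    rw [Real.volume_Ioo]
    apply ENNReal.ofReal_le_ofReal
    rw [← Real.log_div (ne_of_gt (by linarith)) (ne_of_gt (by linarith))]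
    have h1 := Real.one_sub_inv_le_log_of_pos
      (x := ((n : ℝ) - h + 1) / ((n : ℝ) - h)) (div_pos (by linarith) (by linarith))
    refine le_trans ?_ h1
    rw [inv_div]
    have h2 : 1 - ((n : ℝ) - h) / ((n : ℝ) - h + 1) = 1 / ((n : ℝ) - h + 1) := by
      field_simp
      ring
    rw [h2]
    apply one_div_le_one_div_of_le (by linarith)
    nlinarith
  have hsum : ∑ n ∈ B, volume (J n) ≤ ENNReal.ofReal (ε / 2) := by
    rw [← measure_biUnion_finset hdisj (fun n _ => measurableSet_Ioo)]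
    refine le_trans (measure_mono ?_) hvol
    exact Set.iUnion₂_subset hJE
  have hcard : (B.card : ENNReal) * ENNReal.ofReal (1 / (2 * X)) ≤ ENNReal.ofReal (ε / 2) := by
    refine le_trans ?_ hsum
    rw [← nsmul_eq_mul]
    exact Finset.card_nsmul_le_sum _ _ _ hvolJ
  have hXpos : 0 < X := by rw [hXM]; positivity
  have h1 : ENNReal.ofReal ((B.card : ℝ) * (1 / (2 * X))) ≤ ENNReal.ofReal (ε / 2) := by
    rw [ENNReal.ofReal_mul (Nat.cast_nonneg _), ENNReal.ofReal_natCast]
    exact hcard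
  have h2 := (ENNReal.ofReal_le_ofReal_iff (by positivity)).mp h1
  rw [mul_one_div, div_le_iff₀ (by positivity)] at h2
  linarith

end Pool.Agent.Helper29.AA
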